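import Pool.Agent.Helper85.FV.Hom
import Pool.Agent.Helper82.FV.GR2
import Pool.Agent.Helper89.FV.Core

/-!
# The final theorem
-/

open Cardinal

namespace Pool.Agent.Helper85.FV

open Pool.Agent.Helper96.Fc Pool.Agent.Helper89.FV

/-- the index set: its cardinality is larger than the continuum -/
abbrev Ix : Type := Set (Set ℕ)

theorem card_Ix : (2 : Cardinal.{0}) ^ ℵ₀ < #Ix := by
  rw [mk_set, mk_set, mk_nat]
  exact cantor _

theorem dcd (I : Type) : Dcd I := by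
  intro z c
  obtain ⟨q, hq, h⟩ := Cond.decide_set (c := c) (fun n q => FMem (nN _ n) z q)
    (fun n q => ∀ r ≤ q, ¬ FMem (nN _ n) z r) (fun n q r h hr => h.mono hr)
    (fun n q r h hr s hs => h s (hs.trans hr)) (fun n q h h' => h' q le_rfl h)
    (fun n q _ => by
      by_cases h : ∃ r ≤ q, FMem (nN _ n) z r
      · obtain ⟨r, hr, h⟩ := h
        exact ⟨r, hr, Or.inl h⟩
      · push Not at h
        exact ⟨q, le_rfl, Or.inr h⟩)
  refine ⟨q, hq, ?_⟩
  rcases h with h | h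
  · left
    intro n hn
    apply FMem.dense
    intro r hr
    by_contra hcon
    push Not at hcon
    exact h n hn r hr hcon
  · exact Or.inr h

/-- the threshold relation on the codes -/
def EE (k l : ℕ) : Prop := nsq (cmt (dec k) (dec l) - 1) < 1 / 2

theorem coreP : CoreP Ix EE := by
  intro p₀ t h1 h2 h3
  exact Cond.core card_Ix EE p₀ t h1 h2 h3

/-- **The extension.** -/
theorem exists_model : ∃ N : Set ZFSet.{0}, N.Countable ∧ IsZFC N ∧ Tabs N ∧
    ∃ U, FreeUltra N U ∧ ¬ ∃ π, SeqHom N U π := by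
  obtain ⟨mc, hmc⟩ := exists_mulc
  obtain ⟨ac, hac⟩ := exists_adjc
  obtain ⟨u, v, δ, hu, hv, hδ0, hδ, hδc⟩ := exists_unitaries
  obtain ⟨X, G, hX, hG, hT⟩ := exists_gd (I := Ix) u v EE (fun i k l m => match i with
    | 0 => m = mc k l
    | 1 => l = 0 ∧ m = ac k
    | 2 => nsq (dec k - dec l) < 1 / ((m : ℝ) + 1)
    | _ => l = 0 ∧ OpLe m (dec k))
  have hN : IsZFC (Mod X G) := Mod.isZFC hG.basic hG.clos
  have hTabs : Tabs (Mod X G) := ⟨⟨mc, hmc, hT 0⟩, ⟨ac, hac, hT 1⟩, hT 2, hT 3⟩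
  have hU := freeUltra hG.basic hG.clos (dcd Ix) hG.gUl hG.un
  refine ⟨Mod X G, Mod_countable hX, hN, hTabs, _, hU,
    no_seqHom hG (dcd Ix) coreP hu hv hδ0 hδ hδc ?_ ?_ ?_⟩
  · intro x hx hxU
    refine ⟨hx, ⟨1, fun n => (hxU n).opLe⟩, ?_, ?_⟩
    · simp only [(hxU _).1]
      exact Eqv.refl hU _
    · simp only [(hxU _).2]
      exact Eqv.refl hU _
  · intro π hπ a s b t h1 h2 h3
    exact hπ.comm_one hN hU hTabs h1 h2 h3
  · intro π hπ a s b t h1 h2 h3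
    exact hπ.comm_ne hN hU hTabs h1 h2 h3

/-- **Main theorem.** -/
theorem main : ∃ N : Set ZFSet.{0}, N.Countable ∧ IsZFC N ∧ ∃ U, FreeUltra N U ∧
    ∃ (S m : ZFSet.{0}) (G : Group {g // g ∈ S}), GroupIn N S m G ∧
      (∃ θ, HomIn N U S G θ ∧ Inj U S G θ) ∧ ¬ ∃ π, HomIn N U S G π ∧ TraceZero U S G π := by
  obtain ⟨N, h1, h2, h3, U, h4, h5⟩ := exists_model
  exact ⟨N, h1, h2, U, h4, exists_group h2 h4 h3 h5⟩

end Pool.Agent.Helper85.FV
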