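import Pool.Agent.Helper85.FV.Names
import Pool.Agent.Helper89.FV.Cond

/-!
# Names of the generic sequences and of the generic ultrafilter
-/

open Ordinal

set_option linter.unusedSectionVars false

namespace Pool.Agent.Helper85.FV

open Pool.Agent.Helper96.Fc Pool.Agent.Helper89.FV

variable {I : Type}

/-- the condition with the value `j` at `(α, n)` -/
noncomputable def sg (α : I) (n j : ℕ) : Cond I := Cond.fix ⊤ {(α, n)} (fun _ _ => j)

theorem top_p (α : I) (n : ℕ) : (⊤ : Cond I).p α n = Finset.range (n + 1) := rfl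

theorem sg_self {α : I} {n j : ℕ} (hj : j ≤ n) : (sg α n j).p α n = {j} := by
  refine Cond.fix_mem _ (by simp) ?_
  rw [top_p, Finset.mem_range]
  omega

theorem sg_ne {α β : I} {n m j : ℕ} (h : ¬ (β = α ∧ m = n)) :
    (sg α n j).p β m = Finset.range (m + 1) := by
  refine Cond.fix_not_mem _ ?_
  rw [Finset.mem_singleton, Prod.mk.injEq]
  exact h

theorem le_sg {α : I} {n j : ℕ} (hj : j ≤ n) {p : Cond I} : p ≤ sg α n j ↔ p.p α n ⊆ {j} := by
  constructor
  · intro h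
    have := h.2 α n
    rwa [sg_self hj] at this
  · intro h
    refine ⟨?_, fun β m => ?_⟩
    · rw [sg, Cond.fix_b]
      exact Set.subset_univ _
    · by_cases h1 : β = α ∧ m = n
      · obtain ⟨rfl, rfl⟩ := h1
        rw [sg_self hj]
        exact h
      · rw [sg_ne h1]
        exact p.sub β m

theorem sg_inj {α β : I} (h : ∀ n j, j ≤ n → sg α n j = sg β n j) : α = β := by
  by_contra hne
  have h1 := h 1 0 (Nat.zero_le _)
  have h2 : (sg α 1 0).p α 1 = {0} := sg_self (Nat.zero_le _)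
  rw [h1, sg_ne (fun h3 => hne h3.1)] at h2
  have h3 : (1 : ℕ) ∈ ({0} : Finset ℕ) := by
    rw [← h2]
    simp
  simp at h3

/-- name of the sequence `u (f_α n)` -/
noncomputable def aN (u : ℕ → ℕ) (α : I) : Nm (Cond I) :=
  Nm.mk (Σ n : ℕ, Fin (n + 1)) (fun t => pairN (nN _ t.1) (nN _ (u t.2.1)))
    (fun t => sg α t.1 t.2.1)

theorem aN_inj {u : ℕ → ℕ} {α β : I} (h : aN u α = aN u β) : α = β := by
  unfold aN at h
  have h1 := (Nm.mk.inj h).2.2
  have h2 := eq_of_heq h1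
  refine sg_inj fun n j hj => ?_
  exact congrFun h2 ⟨n, ⟨j, Nat.lt_succ_of_le hj⟩⟩

/-- `p` decides the value of `f_α` at `n` -/
def RGn (u : ℕ → ℕ) (p : Cond I) (l : List (Obj (Cond I))) : Prop :=
  ∃ (α : I) (n j : ℕ), l = [Sum.inl (nN _ j), Sum.inl (nN _ n), Sum.inl (aN u α)] ∧ p.p α n = {j}

section

variable {X : Set (Obj (Cond I))} {G : Set (Cond I)}

theorem exists_dec (p : Cond I) (α : I) (n : ℕ) : ∃ q ≤ p, ∃ j, q.p α n = {j} := by
  obtain ⟨j, hj⟩ := p.ne α n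
  refine ⟨p.fix {(α, n)} (fun _ _ => j), Cond.fix_le _ _ _, j, ?_⟩
  exact Cond.fix_mem _ (by simp) hj

theorem exists_fval (hc : Clos X) (u : ℕ → ℕ) (hg : GenR X G (RGn u)) {α : I}
    (hα : (Sum.inl (aN u α) : Obj (Cond I)) ∈ X) (n : ℕ) : ∃ j, ∃ p ∈ G, p.p α n = {j} := by
  obtain ⟨p, hp, h1⟩ := hg [Sum.inl (nN _ n), Sum.inl (aN u α)] (by
    intro a ha
    simp only [List.mem_cons, List.not_mem_nil, or_false] at ha
    rcases ha with rfl | rfl
    · exact nN_mem hc n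
    · exact hα)
  rcases h1 with ⟨y, -, β, n', j, he, h2⟩ | h1
  · simp only [List.cons.injEq, Sum.inl.injEq, and_true] at he
    obtain ⟨-, h3, h4⟩ := he
    obtain rfl := nN_inj' h3
    obtain rfl := aN_inj h4
    exact ⟨j, p, hp, h2⟩
  · exfalso
    obtain ⟨q, hq, j, hj⟩ := exists_dec p α n
    exact h1 q hq _ ⟨α, n, j, rfl, hj⟩

theorem fval_unique (hb : Basic X G) {α : I} {n j k : ℕ} {p q : Cond I} (hp : p ∈ G) (hq : q ∈ G)
    (h1 : p.p α n = {j}) (h2 : q.p α n ⊆ {k}) : j = k := by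
  obtain ⟨r, -, hrp, hrq⟩ := hb.filt.compat hp hq
  obtain ⟨i, hi⟩ := r.ne α n
  have h3 := hrp.2 α n hi
  have h4 := h2 (hrq.2 α n hi)
  rw [h1] at h3
  rw [← Finset.mem_singleton.1 h3, ← Finset.mem_singleton.1 h4]

/-- the generic function `f_α` -/
theorem exists_gen (hb : Basic X G) (hc : Clos X) (u : ℕ → ℕ) (hg : GenR X G (RGn u)) {α : I}
    (hα : (Sum.inl (aN u α) : Obj (Cond I)) ∈ X) : ∃ f : ℕ → ℕ, (∀ n, f n ≤ n) ∧
      (∀ p ∈ G, ∀ n, f n ∈ p.p α n) ∧ val X G (aN u α) = graph (fun n => u (f n)) := by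
  choose f q hq hf using fun n => exists_fval hc u hg hα n
  have hmem : ∀ p ∈ G, ∀ n, f n ∈ p.p α n := by
    intro p hp n
    obtain ⟨r, -, hrp, hrq⟩ := hb.filt.compat hp (hq n)
    obtain ⟨i, hi⟩ := r.ne α n
    have h3 := hrq.2 α n hi
    rw [hf n] at h3
    rw [← Finset.mem_singleton.1 h3]
    exact hrp.2 α n hi
  have hle : ∀ n, f n ≤ n := by
    intro n
    have := (q n).sub α n (hmem _ (hq n) n)
    rw [Finset.mem_range] at this
    omega
  refine ⟨f, hle, hmem, ?_⟩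
  ext z
  rw [mem_val, mem_graph']
  constructor
  · rintro ⟨⟨n, j⟩, h1, -, rfl⟩
    refine ⟨n, ?_⟩
    have h2 : (sg α n j.1).p α n = {j.1} := sg_self (Nat.lt_succ_iff.1 j.2)
    have h3 : f n = j.1 := fval_unique hb (hq n) h1 (hf n) h2.le
    have h4 := val_pN hb.filt hc n (u j.1)
    rw [h3]
    exact h4
  · rintro ⟨n, rfl⟩
    refine ⟨⟨n, ⟨f n, Nat.lt_succ_of_le (hle n)⟩⟩, ?_, pN_mem hc _ _, val_pN hb.filt hc _ _⟩
    refine hb.filt.up _ (hq n) _ ?_
    refine (le_sg (hle n)).2 ?_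
    rw [hf n]

end

end Pool.Agent.Helper85.FV
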