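import Pool.Agent.Helper85.FV.Rel

/-!
# No trace-zero homomorphism of `U(R^U)` into itself in the generic extension
-/

open Ordinal

set_option linter.unusedSectionVars false

namespace Pool.Agent.Helper85.FV

open Pool.Agent.Helper96.Fc Pool.Agent.Helper89.FV

variable {I : Type}

/-- all genericity and closure conditions -/
structure Gd (u : ℕ → ℕ) (v : ℕ → (ℕ → ℕ) → ℕ) (E : ℕ → ℕ → Prop)
    (X : Set (Obj (Cond I))) (G : Set (Cond I)) : Prop where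
  basic : Basic X G
  clos : Clos X
  un : (Sum.inl (UN I) : Obj (Cond I)) ∈ X
  cut : ∀ (r : Cond I) m, (Sum.inr r : Obj (Cond I)) ∈ X →
    (Sum.inl (setN (Cond I) (r.b ∩ Set.Ici m)) : Obj (Cond I)) ∈ X
  gUl : GenR X G RUl
  gGn : GenR X G (RGn u)
  gA1 : GenR X G (RA1 u)
  gB1 : GenR X G (RB1 v)
  gT2 : GenR X G RT2
  gF : GenR X G RF
  gC : GenR X G (RC u v E)

section

variable {X : Set (Obj (Cond I))} {G : Set (Cond I)}

theorem forbid {R : Cond I → List (Obj (Cond I)) → Prop} (hg : GenR X G R) {w : Nm (Cond I)}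
    (hw : (Sum.inl w : Obj (Cond I)) ∈ X) (hno : ∀ p ∈ G, ∀ y ∈ X, ¬ R p [y, Sum.inl w]) :
    ∃ p ∈ G, ∀ q ≤ p, ∀ y, ¬ R q [y, Sum.inl w] := by
  obtain ⟨p, hp, h1⟩ := hg [Sum.inl w] (by
    intro a ha
    rw [List.mem_singleton] at ha
    rwa [ha])
  rcases h1 with ⟨y, hy, h2⟩ | h1
  · exact (hno p hp y hy h2).elim
  · exact ⟨p, hp, h1⟩

/-- the sets of `U` meet the sets `b_p`, `p ∈ G`, in large levels, where other members of `G` can
be taken into account -/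
theorem meets (hb : Basic X G) (hc : Clos X) (hD : Dcd I) (hg : GenR X G RUl) {z : ZFSet.{0}}
    (hz : z ∈ val X G (UN I)) {p : Cond I} (hp : p ∈ G) (m : ℕ) :
    ∃ n ∈ p.b, m ≤ n ∧ nat n ∈ z := by
  obtain ⟨-, -, q, hq, k, hk⟩ := (mem_UN hb hc hD hg).1 hz
  obtain ⟨r, -, hrp, hrq⟩ := hb.filt.compat hp hq
  obtain ⟨n, hn, h1⟩ := exists_ge r.inf (max m k)
  exact ⟨n, hrp.1 hn, (le_max_left _ _).trans h1, hk n (hrq.1 hn) ((le_max_right _ _).trans h1)⟩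

theorem Fv_of_graph (hb : Basic X G) (hc : Clos X) {σ : Nm (Cond I)}
    (hσ : (Sum.inl σ : Obj (Cond I)) ∈ X) {s : ℕ → ℕ} (h : val X G σ = graph s) (n : ℕ) :
    ∃ p ∈ G, Fv σ n (s n) p := by
  have h1 : ZFSet.pair (nat n) (nat (s n)) ∈ val X G σ := by
    rw [h]
    exact mem_graph'.2 ⟨n, rfl⟩
  exact (pN_mem_val hb hc hσ).1 h1

theorem graph_of_Fv (hb : Basic X G) (hc : Clos X) {σ : Nm (Cond I)}
    (hσ : (Sum.inl σ : Obj (Cond I)) ∈ X) {s : ℕ → ℕ} (h : val X G σ = graph s) {n k : ℕ}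
    {p : Cond I} (hp : p ∈ G) (hF : Fv σ n k p) : k = s n := by
  have h1 : ZFSet.pair (nat n) (nat k) ∈ val X G σ := (pN_mem_val hb hc hσ).2 ⟨p, hp, hF⟩
  rw [h] at h1
  exact pair_mem_graph'.1 h1

/-- **There is no trace-zero homomorphism in the extension.** -/
theorem no_seqHom {u : ℕ → ℕ} {v : ℕ → (ℕ → ℕ) → ℕ} {E : ℕ → ℕ → Prop} (h : Gd u v E X G)
    (hD : Dcd I) (hcore : CoreP I E) {δ : ℕ → ℝ} (hu : ∀ j, IsU (dec (u j)))
    (hv : ∀ n c, IsU (dec (v n c))) (hδ0 : ∀ i, 0 < δ i)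
    (hδ : Filter.Tendsto δ Filter.atTop (nhds 0))
    (hδc : ∀ n c j, j ≤ n → nsq (cmt (dec (u j)) (dec (v n c)) - 1) = δ (c j))
    (hUni : ∀ x, graph x ∈ Mod X G → (∀ n, IsU (dec (x n))) → Uni (Mod X G) (val X G (UN I)) x)
    (hone : ∀ π, SeqHom (Mod X G) (val X G (UN I)) π → ∀ a s b t : ℕ → ℕ,
      ZFSet.pair (graph a) (graph s) ∈ π → ZFSet.pair (graph b) (graph t) ∈ π →
      Eqv (val X G (UN I)) (fun n => cmt (dec (a n)) (dec (b n))) (fun _ => 1) →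
      ∃ z ∈ val X G (UN I), ∀ n, nat n ∈ z → E (s n) (t n))
    (hne : ∀ π, SeqHom (Mod X G) (val X G (UN I)) π → ∀ a s b t : ℕ → ℕ,
      ZFSet.pair (graph a) (graph s) ∈ π → ZFSet.pair (graph b) (graph t) ∈ π →
      ¬ Eqv (val X G (UN I)) (fun n => cmt (dec (a n)) (dec (b n))) (fun _ => 1) →
      ∃ z ∈ val X G (UN I), ∀ n, nat n ∈ z → ¬ E (s n) (t n)) :
    ¬ ∃ π, SeqHom (Mod X G) (val X G (UN I)) π := by
  rintro ⟨π, hπ⟩
  have hb := h.basic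
  have hc := h.clos
  obtain ⟨w, hw, rfl⟩ : ∃ w : Nm (Cond I), (Sum.inl w : Obj (Cond I)) ∈ X ∧ val X G w = π :=
    hπ.mem
  -- values of the names in pairs of `π`
  have hpair : ∀ x σ : Nm (Cond I), (Sum.inl x : Obj (Cond I)) ∈ X →
      (Sum.inl σ : Obj (Cond I)) ∈ X → ∀ p ∈ G, FMem (pairN x σ) w p →
      ∃ a s, val X G x = graph a ∧ val X G σ = graph s ∧
        ZFSet.pair (graph a) (graph s) ∈ val X G w := by
    intro x σ hx hσ p hp hm
    have h1 := (pair_mem_val hb hc hx hσ hw).2 ⟨p, hp, hm⟩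
    obtain ⟨a, s, h2, -, -⟩ := hπ.sub _ h1
    obtain ⟨h3, h4⟩ := ZFSet.pair_injective h2
    refine ⟨a, s, h3, h4, ?_⟩
    rwa [h3, h4] at h1
  have htot : ∀ (x : Nm (Cond I)) (a : ℕ → ℕ), (Sum.inl x : Obj (Cond I)) ∈ X →
      val X G x = graph a → (∀ n, IsU (dec (a n))) → ∀ p ∈ G,
      ¬ ∀ r ≤ p, ∀ σ, ¬ FMem (pairN x σ) w r := by
    intro x a hx ha haU p hp hcon
    have h1 : Uni (Mod X G) (val X G (UN I)) a := hUni a (by rw [← ha]; exact mem_Mod hx) haU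
    obtain ⟨s, hs⟩ := hπ.tot a h1
    obtain ⟨x', s', h2, -, h3⟩ := hπ.sub _ hs
    obtain ⟨-, h4⟩ := ZFSet.pair_injective h2
    obtain ⟨σ, hσ, h5⟩ : ∃ σ : Nm (Cond I), (Sum.inl σ : Obj (Cond I)) ∈ X ∧
        val X G σ = graph s' := h3.mem
    rw [h4, ← h5, ← ha] at hs
    obtain ⟨q, hq, h6⟩ := (pair_mem_val hb hc hx hσ hw).1 hs
    obtain ⟨r, -, hrp, hrq⟩ := hb.filt.compat hp hq
    exact hcon r hrp σ (h6.mono hrq)
  -- no real counterexamples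
  obtain ⟨p1, hp1, f1⟩ := forbid h.gA1 hw (by
    rintro p hp y hy ⟨α, w', he, h1⟩
    simp only [List.cons.injEq, Sum.inl.injEq, and_true] at he
    obtain ⟨rfl, rfl⟩ := he
    obtain ⟨f, -, -, h2⟩ := exists_gen hb hc u h.gGn hy
    exact htot _ _ hy h2 (fun n => hu _) p hp h1)
  obtain ⟨p2, hp2, f2⟩ := forbid h.gB1 hw (by
    rintro p hp y hy ⟨c, w', he, h1⟩
    simp only [List.cons.injEq, Sum.inl.injEq, and_true] at he
    obtain ⟨rfl, rfl⟩ := he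
    exact htot _ _ hy (val_gN hb.filt hc _) (fun n => hv _ _) p hp h1)
  obtain ⟨p3, hp3, f3⟩ := forbid h.gT2 hw (by
    rintro p hp y hy ⟨x, σ, n, w', he, h1, h2⟩
    simp only [List.cons.injEq, Sum.inl.injEq, and_true] at he
    obtain ⟨rfl, rfl⟩ := he
    have hxσ := hc.fst _ _ hy
    have hx := hc.fst _ _ hxσ
    have hσ := hc.snd _ _ hxσ
    obtain ⟨a, s, -, h4, -⟩ := hpair x σ hx hσ p hp h1
    obtain ⟨q, hq, h5⟩ := Fv_of_graph hb hc hσ h4 n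
    obtain ⟨r, -, hrp, hrq⟩ := hb.filt.compat hp hq
    exact h2 r hrp _ (h5.mono hrq))
  obtain ⟨p4, hp4, f4⟩ := forbid h.gF hw (by
    rintro p hp y hy ⟨x, σ, n, k, k', w', he, h1, h2, h3, hk⟩
    simp only [List.cons.injEq, Sum.inl.injEq, and_true] at he
    obtain ⟨rfl, rfl⟩ := he
    have hxσ := hc.fst _ _ hy
    have hx := hc.fst _ _ hxσ
    have hσ := hc.snd _ _ hxσ
    obtain ⟨a, s, -, h4, -⟩ := hpair x σ hx hσ p hp h1
    exact hk ((graph_of_Fv hb hc hσ h4 hp h2).trans (graph_of_Fv hb hc hσ h4 hp h3).symm))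
  obtain ⟨p5, hp5, f5⟩ := forbid h.gC hw (by
    rintro p hp x hx ⟨α, y, σ, τ, w', he, h1, h2, h3⟩
    simp only [List.cons.injEq, Sum.inl.injEq, and_true] at he
    obtain ⟨rfl, rfl⟩ := he
    have hab := hc.fst _ _ hx
    have hστ := hc.snd _ _ hx
    have ha := hc.fst _ _ hab
    have hbX := hc.snd _ _ hab
    have hσ := hc.fst _ _ hστ
    have hτ := hc.snd _ _ hστ
    obtain ⟨f, hfn, hfp, hf⟩ := exists_gen hb hc u h.gGn ha
    obtain ⟨a, s, e1, e2, e3⟩ := hpair _ σ ha hσ p hp h1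
    obtain ⟨b, t, e4, e5, e6⟩ := hpair _ τ hbX hτ p hp h2
    have hbv : val X G (bN I v y) = graph (fun n => v n (y n)) := val_gN hb.filt hc _
    obtain rfl := graph_inj' (hf.symm.trans e1)
    obtain rfl := graph_inj' (hbv.symm.trans e4)
    -- the values of the commutator
    have hval : ∀ n, nsq (cmt (dec (u (f n))) (dec (v n (y n))) - 1) = δ (y n (f n)) :=
      fun n => hδc n (y n) (f n) (hfn n)
    -- the values of the two images are decided by the members of `G`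
    have hst : ∀ n, ∃ r ≤ p, Fv σ n (s n) r ∧ Fv τ n (t n) r := by
      intro n
      obtain ⟨q1, hq1, h4⟩ := Fv_of_graph hb hc hσ e2 n
      obtain ⟨q2, hq2, h5⟩ := Fv_of_graph hb hc hτ e5 n
      obtain ⟨q3, hq3, h6, h7⟩ := hb.filt.compat hq1 hq2
      obtain ⟨r, -, h8, h9⟩ := hb.filt.compat hp hq3
      exact ⟨r, h8, h4.mono (h9.trans h6), h5.mono (h9.trans h7)⟩
    rcases h3 with ⟨i, h3, h4⟩ | ⟨h3, h4⟩
    · -- the commutator is not `1`
      have hE : ¬ Eqv (val X G (UN I)) (fun n => cmt (dec (u (f n))) (dec (v n (y n))))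
          (fun _ => 1) := by
        intro hE
        obtain ⟨z, hz, hz2⟩ := hE (δ i) (hδ0 i)
        obtain ⟨n, hn, -, hnz⟩ := meets hb hc hD h.gUl hz hp 0
        have h5 := hz2 n hnz
        simp only [hval n, h3 n hn (f n) (hfp p hp n)] at h5
        rw [abs_of_pos (hδ0 i)] at h5
        exact lt_irrefl _ h5
      obtain ⟨z, hz, hz2⟩ := hne _ hπ _ _ _ _ e3 e6 hE
      obtain ⟨n, hn, -, hnz⟩ := meets hb hc hD h.gUl hz hp 0
      obtain ⟨r, hr, h5, h6⟩ := hst n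
      exact hz2 n hnz (h4 n hn r hr _ _ h5 h6)
    · -- the commutator is `1`
      have hE : Eqv (val X G (UN I)) (fun n => cmt (dec (u (f n))) (dec (v n (y n))))
          (fun _ => 1) := by
        intro ε hε
        obtain ⟨m, hm⟩ := Filter.eventually_atTop.1 (hδ.eventually (gt_mem_nhds hε))
        obtain ⟨N, hN⟩ := h3 m
        obtain ⟨z, hz, r, hr, hrp, hz2⟩ := cond_mem_U hb hc hD h.gUl h.cut hp N
        refine ⟨z, hz, fun n hn => ?_⟩
        obtain ⟨h5, h6⟩ := (hz2 n).1 hn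
        simp only [hval n]
        rw [abs_of_pos (hδ0 _)]
        exact hm _ (hN n (hrp.1 h5) h6 _ (hfp p hp n))
      obtain ⟨z, hz, hz2⟩ := hone _ hπ _ _ _ _ e3 e6 hE
      obtain ⟨n, hn, -, hnz⟩ := meets hb hc hD h.gUl hz hp 0
      obtain ⟨r, hr, h5, h6⟩ := hst n
      exact h4 n hn r hr _ _ h5 h6 (hz2 n hnz))
  obtain ⟨q1, hq1, a1, a2⟩ := hb.filt.compat hp1 hp2
  obtain ⟨q2, hq2, a3, a4⟩ := hb.filt.compat hp3 hp4
  obtain ⟨q3, hq3, a5, a6⟩ := hb.filt.compat hq1 hq2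
  obtain ⟨p₀, -, a7, a8⟩ := hb.filt.compat hq3 hp5
  exact core_contra u v hcore w p₀
    (fun q hq => f1 q (hq.trans (a7.trans (a5.trans a1))))
    (fun q hq => f2 q (hq.trans (a7.trans (a5.trans a2))))
    (fun q hq => f3 q (hq.trans (a7.trans (a6.trans a3))))
    (fun q hq => f4 q (hq.trans (a7.trans (a6.trans a4))))
    (fun q hq => f5 q (hq.trans a8))

end

/-- the operations -/
noncomputable def OO (T : ℕ → ℕ → ℕ → ℕ → Prop) : ℕ × ℕ → List (Obj (Cond I)) →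
    Obj (Cond I) → Prop
  | (0, _), l, z => l = [] ∧ z = Sum.inl (UN I)
  | (1, m), l, z => ∃ r : Cond I, l = [Sum.inr r] ∧
      z = Sum.inl (setN (Cond I) (r.b ∩ Set.Ici m))
  | (_, m), l, z => l = [] ∧ z = Sum.inl (tabN (Cond I) (T m))

theorem OO_fun (T : ℕ → ℕ → ℕ → ℕ → Prop) : ∀ (k : ℕ × ℕ) (l : List (Obj (Cond I)))
    (y z : Obj (Cond I)), OO T k l y → OO T k l z → y = z := by
  intro k l y z hy hz
  match k, hy, hz with
  | (0, _), hy, hz => rw [hy.2, hz.2]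
  | (1, m), hy, hz =>
    obtain ⟨a, rfl, rfl⟩ := hy
    obtain ⟨c, h, rfl⟩ := hz
    simp only [List.cons.injEq, Sum.inr.injEq, and_true] at h
    rw [h]
  | (n + 2, m), hy, hz => rw [hy.2, hz.2]

/-- the relations -/
noncomputable def RR (u : ℕ → ℕ) (v : ℕ → (ℕ → ℕ) → ℕ) (E : ℕ → ℕ → Prop) :
    ℕ → Cond I → List (Obj (Cond I)) → Prop
  | 0 => RUl
  | 1 => RGn u
  | 2 => RA1 u
  | 3 => RB1 v
  | 4 => RT2
  | 5 => RF
  | _ => RC u v E

/-- **Existence of the extension.** -/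
theorem exists_gd (u : ℕ → ℕ) (v : ℕ → (ℕ → ℕ) → ℕ) (E : ℕ → ℕ → Prop)
    (T : ℕ → ℕ → ℕ → ℕ → Prop) :
    ∃ (X : Set (Obj (Cond I))) (G : Set (Cond I)), X.Countable ∧ Gd u v E X G ∧
      ∀ m, Tab (Mod X G) (T m) := by
  obtain ⟨X, G, hX, -, hb, hc, hR0, hO0⟩ := exists_good
    (K := ℕ ⊕ (ℕ × ℕ)) (Sum.elim (RR u v E) (fun _ _ _ => False))
    (Sum.elim (fun _ _ _ => False) (OO T))
    (by
      rintro (k | k) l y z hy hz
      · exact hy.elim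
      · exact OO_fun T k l y z hy hz) (⊤ : Cond I)
  have hR : ∀ k, GenR X G (RR u v E k) := fun k => hR0 (.inl k)
  have hO : ∀ k l y, (∀ a ∈ l, a ∈ X) → OO T k l y → y ∈ X := fun k => hO0 (.inr k)
  have l0 : ∀ b ∈ ([] : List (Obj (Cond I))), b ∈ X := by simp
  have l1 : ∀ {a : Obj (Cond I)}, a ∈ X → ∀ b ∈ [a], b ∈ X := by
    intro a ha b hb
    rw [List.mem_singleton] at hb
    rwa [hb]
  refine ⟨X, G, hX, ⟨hb, hc, hO (0, 0) [] _ l0 ⟨rfl, rfl⟩, ?_, hR 0, hR 1, hR 2, hR 3, hR 4, hR 5,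
    hR 6⟩, fun m => tab_of hb.filt hc (hO (2, m) [] _ l0 ⟨rfl, rfl⟩)⟩
  intro r m hr
  exact hO (1, m) _ _ (l1 hr) ⟨r, rfl, rfl⟩

end Pool.Agent.Helper85.FV
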