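import Pool.Agent.Helper96.Fc.Good
import Pool.Agent.Helper89.FV.Iface

/-!
# Check names of natural numbers, sequences and tables
-/

open Ordinal

set_option linter.unusedSectionVars false

namespace Pool.Agent.Helper85.FV

open Pool.Agent.Helper96.Fc Pool.Agent.Helper89.FV

variable {P : Type} [PartialOrder P] [OrderTop P]

/-- name of a natural number -/
noncomputable def nN (P : Type) [PartialOrder P] [OrderTop P] (n : ℕ) : Nm P :=
  ordN P (n : Ordinal.{0})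

/-- check name of a sequence of natural numbers -/
noncomputable def gN (P : Type) [PartialOrder P] [OrderTop P] (x : ℕ → ℕ) : Nm P :=
  Nm.mk ℕ (fun n => pairN (nN P n) (nN P (x n))) (fun _ => ⊤)

/-- check name of a table -/
noncomputable def tabN (P : Type) [PartialOrder P] [OrderTop P] (R : ℕ → ℕ → ℕ → Prop) : Nm P :=
  Nm.mk {t : ℕ × ℕ × ℕ // R t.1 t.2.1 t.2.2}
    (fun t => pairN (pairN (nN P t.1.1) (nN P t.1.2.1)) (nN P t.1.2.2)) (fun _ => ⊤)

/-- check name of a set of natural numbers -/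
noncomputable def setN (P : Type) [PartialOrder P] [OrderTop P] (b : Set ℕ) : Nm P :=
  Nm.mk b (fun n => nN P n.1) (fun _ => ⊤)

theorem nN_inj' {m n : ℕ} (h : nN P m = nN P n) : m = n := by
  exact_mod_cast ordN_inj' (P := P) h

theorem nN_inj {m n : ℕ} {p : P} (h : FEq (nN P m) (nN P n) p) : m = n := by
  exact_mod_cast ordN_inj (P := P) h

theorem mem_om' {z : ZFSet.{0}} : z ∈ om ↔ ∃ n, z = nat n := by
  rw [om, Ordinal.mem_toZFSet_iff]
  constructor
  · rintro ⟨a, ha, rfl⟩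
    obtain ⟨n, rfl⟩ := Ordinal.lt_omega0.1 ha
    exact ⟨n, rfl⟩
  · rintro ⟨n, rfl⟩
    exact ⟨_, Ordinal.natCast_lt_omega0 n, rfl⟩

theorem nat_inj' {m n : ℕ} (h : nat m = nat n) : m = n := by
  have := Ordinal.toZFSet_injective h
  exact_mod_cast this

theorem mem_graph' {x : ℕ → ℕ} {z : ZFSet.{0}} :
    z ∈ graph x ↔ ∃ n, z = ZFSet.pair (nat n) (nat (x n)) := by
  rw [graph, ZFSet.mem_range]
  constructor
  · rintro ⟨n, rfl⟩; exact ⟨n, rfl⟩
  · rintro ⟨n, rfl⟩; exact ⟨n, rfl⟩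

theorem pair_mem_graph' {x : ℕ → ℕ} {m n : ℕ} :
    ZFSet.pair (nat m) (nat n) ∈ graph x ↔ n = x m := by
  rw [mem_graph']
  constructor
  · rintro ⟨k, hk⟩
    obtain ⟨h1, h2⟩ := ZFSet.pair_injective hk
    rw [nat_inj' h1, nat_inj' h2]
  · rintro rfl
    exact ⟨m, rfl⟩

theorem graph_inj' {x y : ℕ → ℕ} (h : graph x = graph y) : x = y := by
  funext n
  have h1 : ZFSet.pair (nat n) (nat (x n)) ∈ graph y := by
    rw [← h]
    exact mem_graph'.2 ⟨n, rfl⟩
  exact pair_mem_graph'.1 h1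

section

variable {X : Set (Obj P)} {G : Set P}

theorem nN_mem (hc : Clos X) (n : ℕ) : (Sum.inl (nN P n) : Obj P) ∈ X := by
  induction n with
  | zero =>
    have := hc.zero
    rwa [nN, Nat.cast_zero]
  | succ n ih =>
    have := hc.succ _ ih
    rwa [nN, Nat.cast_succ]

theorem val_nN (h : IsFilt X G) (hc : Clos X) (n : ℕ) : val X G (nN P n) = nat n := by
  induction n with
  | zero => rw [nN, nat, Nat.cast_zero, val_ordN_zero h, Ordinal.toZFSet_zero]
  | succ n ih =>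
    have h1 := nN_mem hc n
    rw [nN] at h1 ih
    rw [nN, nat, Nat.cast_succ, val_ordN_succ h h1, ih, nat, Ordinal.toZFSet_add_one]

theorem val_om (h : IsFilt X G) (hc : Clos X) : val X G (ordN P ω) = om := by
  ext z
  rw [val_ordN_mem h, mem_om']
  constructor
  · rintro ⟨b, hb, h1, rfl⟩
    obtain ⟨n, rfl⟩ := Ordinal.lt_omega0.1 hb
    exact ⟨n, val_nN h hc n⟩
  · rintro ⟨n, rfl⟩
    exact ⟨_, Ordinal.natCast_lt_omega0 n, nN_mem hc n, val_nN h hc n⟩

theorem pN_mem (hc : Clos X) (m n : ℕ) : (Sum.inl (pairN (nN P m) (nN P n)) : Obj P) ∈ X :=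
  hc.pair (nN_mem hc m) (nN_mem hc n)

theorem val_pN (h : IsFilt X G) (hc : Clos X) (m n : ℕ) :
    val X G (pairN (nN P m) (nN P n)) = ZFSet.pair (nat m) (nat n) := by
  rw [val_pairN h hc (nN_mem hc m) (nN_mem hc n), val_nN h hc, val_nN h hc]

theorem val_gN (h : IsFilt X G) (hc : Clos X) (x : ℕ → ℕ) : val X G (gN P x) = graph x := by
  ext z
  rw [mem_val, mem_graph']
  constructor
  · rintro ⟨n, -, -, rfl⟩
    exact ⟨n, val_pN h hc _ _⟩
  · rintro ⟨n, rfl⟩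
    exact ⟨n, h.top, pN_mem hc _ _, val_pN h hc _ _⟩

theorem val_setN (h : IsFilt X G) (hc : Clos X) {b : Set ℕ} {z : ZFSet.{0}} :
    z ∈ val X G (setN P b) ↔ ∃ n ∈ b, z = nat n := by
  rw [mem_val]
  constructor
  · rintro ⟨n, -, -, rfl⟩
    exact ⟨n.1, n.2, val_nN h hc _⟩
  · rintro ⟨n, hn, rfl⟩
    exact ⟨⟨n, hn⟩, h.top, nN_mem hc _, val_nN h hc _⟩

theorem tab_of (h : IsFilt X G) (hc : Clos X) {R : ℕ → ℕ → ℕ → Prop}
    (hR : (Sum.inl (tabN P R) : Obj P) ∈ X) : Tab (Mod X G) R := by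
  refine ⟨_, mem_Mod hR, fun z => ?_⟩
  rw [mem_val]
  have hv : ∀ k l m, val X G (pairN (pairN (nN P k) (nN P l)) (nN P m)) =
      ZFSet.pair (ZFSet.pair (nat k) (nat l)) (nat m) := by
    intro k l m
    rw [val_pairN h hc (pN_mem hc k l) (nN_mem hc m), val_pN h hc, val_nN h hc]
  constructor
  · rintro ⟨⟨⟨k, l, m⟩, ht⟩, -, -, rfl⟩
    exact ⟨k, l, m, ht, hv k l m⟩
  · rintro ⟨k, l, m, ht, rfl⟩
    exact ⟨⟨⟨k, l, m⟩, ht⟩, h.top, hc.pair (pN_mem hc k l) (nN_mem hc m), hv k l m⟩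

/-- membership of pairs in the values of names -/
theorem pair_mem_val (h : Basic X G) (hc : Clos X) {a b c : Nm P} (ha : (Sum.inl a : Obj P) ∈ X)
    (hb : (Sum.inl b : Obj P) ∈ X) (hcX : (Sum.inl c : Obj P) ∈ X) :
    ZFSet.pair (val X G a) (val X G b) ∈ val X G c ↔ ∃ p ∈ G, FMem (pairN a b) c p := by
  rw [← val_pairN h.filt hc ha hb]
  exact h.mem_iff (hc.pair ha hb) hcX

theorem pN_mem_val (h : Basic X G) (hc : Clos X) {m n : ℕ} {c : Nm P}
    (hcX : (Sum.inl c : Obj P) ∈ X) :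
    ZFSet.pair (nat m) (nat n) ∈ val X G c ↔
      ∃ p ∈ G, FMem (pairN (nN P m) (nN P n)) c p := by
  rw [← pair_mem_val h hc (nN_mem hc m) (nN_mem hc n) hcX, val_nN h.filt hc, val_nN h.filt hc]

theorem nN_mem_val (h : Basic X G) (hc : Clos X) {n : ℕ} {c : Nm P}
    (hcX : (Sum.inl c : Obj P) ∈ X) :
    nat n ∈ val X G c ↔ ∃ p ∈ G, FMem (nN P n) c p := by
  rw [← h.mem_iff (nN_mem hc n) hcX, val_nN h.filt hc]

end

end Pool.Agent.Helper85.FV
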