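import Pool.Agent.Helper85.FV.Ult

/-!
# The genericity relations and the combinatorial part of the contradiction
-/

open Ordinal

set_option linter.unusedSectionVars false

namespace Pool.Agent.Helper85.FV

open Pool.Agent.Helper96.Fc Pool.Agent.Helper89.FV

/-- every set of conditions contains a maximal antichain -/
theorem exists_antichain {P : Type} [PartialOrder P] (D : Set P) : ∃ A ⊆ D,
    (∀ a ∈ A, ∀ b ∈ A, ∀ r, r ≤ a → r ≤ b → a = b) ∧ ∀ q ∈ D, ∃ a ∈ A, ∃ r, r ≤ q ∧ r ≤ a := by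
  obtain ⟨A, hA⟩ := zorn_subset {A : Set P | A ⊆ D ∧
    ∀ a ∈ A, ∀ b ∈ A, ∀ r, r ≤ a → r ≤ b → a = b} (by
      intro C hC hchain
      refine ⟨⋃₀ C, ⟨?_, ?_⟩, fun s hs => Set.subset_sUnion_of_mem hs⟩
      · rintro a ⟨A, hA, ha⟩
        exact (hC hA).1 ha
      · rintro a ⟨A, hA, ha⟩ b ⟨B, hB, hb⟩ r hra hrb
        rcases hchain.total hA hB with h | h
        · exact (hC hB).2 a (h ha) b hb r hra hrb
        · exact (hC hA).2 a ha b (h hb) r hra hrb)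
  refine ⟨A, hA.prop.1, hA.prop.2, ?_⟩
  intro q hq
  by_contra hcon
  push Not at hcon
  have h1 : insert q A ⊆ A := by
    refine hA.le_of_ge ⟨?_, ?_⟩ (Set.subset_insert q A)
    · rintro t (rfl | ht)
      · exact hq
      · exact hA.prop.1 ht
    · rintro a (rfl | ha) b (rfl | hb) r hra hrb
      · rfl
      · exact (hcon b hb r hra hrb).elim
      · exact (hcon a ha r hrb hra).elim
      · exact hA.prop.2 a ha b hb r hra hrb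
  exact hcon q (h1 (Set.mem_insert q A)) q le_rfl le_rfl

variable {I : Type}

/-- the two alternatives of the core theorem -/
def CAlt (E : ℕ → ℕ → Prop) (α : I) (y : ℕ → ℕ → ℕ) (q : Cond I)
    (s t : ℕ → ℕ → Cond I → Prop) : Prop :=
  (∃ i, (∀ n ∈ q.b, ∀ j ∈ q.p α n, y n j = i) ∧
      ∀ n ∈ q.b, ∀ r ≤ q, ∀ k l, s n k r → t n l r → E k l) ∨
    ((∀ m, ∃ N, ∀ n ∈ q.b, N ≤ n → ∀ j ∈ q.p α n, m ≤ y n j) ∧
      ∀ n ∈ q.b, ∀ r ≤ q, ∀ k l, s n k r → t n l r → ¬ E k l)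

/-- the statement of the core theorem -/
def CoreP (I : Type) (E : ℕ → ℕ → Prop) : Prop :=
  ∀ (p₀ : Cond I) (t : (ℕ → ℕ → ℕ) → ℕ → ℕ → Cond I → Prop)
    (_ : ∀ y n k q r, t y n k q → r ≤ q → t y n k r)
    (_ : ∀ y n k k', ∀ q ≤ p₀, t y n k q → t y n k' q → k = k')
    (_ : ∀ y n, ∀ q ≤ p₀, ∃ r ≤ q, ∃ k, t y n k r),
    ∃ α : I, ∀ p₁ ≤ p₀, ∀ s : ℕ → ℕ → Cond I → Prop,
      (∀ n k q r, s n k q → r ≤ q → s n k r) →
      (∀ n k k', ∀ q ≤ p₁, s n k q → s n k' q → k = k') →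
      (∀ n, ∀ q ≤ p₁, ∃ r ≤ q, ∃ k, s n k r) →
      ∃ (y : ℕ → ℕ → ℕ) (q : Cond I), q ≤ p₁ ∧ CAlt E α y q s (t y)

/-- `p` forces that `n ↦ k` belongs to `σ` -/
def Fv (σ : Nm (Cond I)) (n k : ℕ) (p : Cond I) : Prop := FMem (pairN (nN _ n) (nN _ k)) σ p

theorem Fv.mono {σ : Nm (Cond I)} {n k : ℕ} {p q : Cond I} (h : Fv σ n k p) (hq : q ≤ p) :
    Fv σ n k q := FMem.mono h hq

variable (u : ℕ → ℕ) (v : ℕ → (ℕ → ℕ) → ℕ)

/-- name of the sequence `v n (y n)` -/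
noncomputable def bN (I : Type) (v : ℕ → (ℕ → ℕ) → ℕ) (y : ℕ → ℕ → ℕ) : Nm (Cond I) :=
  gN (Cond I) (fun n => v n (y n))

/-- no value at `a_α` -/
def RA1 (p : Cond I) (l : List (Obj (Cond I))) : Prop :=
  ∃ (α : I) (w : Nm (Cond I)), l = [Sum.inl (aN u α), Sum.inl w] ∧
    ∀ r ≤ p, ∀ σ, ¬ FMem (pairN (aN u α) σ) w r

/-- no value at `b_y` -/
def RB1 (p : Cond I) (l : List (Obj (Cond I))) : Prop :=
  ∃ (y : ℕ → ℕ → ℕ) (w : Nm (Cond I)), l = [Sum.inl (bN I v y), Sum.inl w] ∧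
    ∀ r ≤ p, ∀ σ, ¬ FMem (pairN (bN I v y) σ) w r

/-- a value that is not total -/
def RT2 (p : Cond I) (l : List (Obj (Cond I))) : Prop :=
  ∃ (x σ : Nm (Cond I)) (n : ℕ) (w : Nm (Cond I)),
    l = [Sum.inl (pairN (pairN x σ) (nN _ n)), Sum.inl w] ∧
    FMem (pairN x σ) w p ∧ ∀ r ≤ p, ∀ k, ¬ Fv σ n k r

/-- a value that is not functional -/
def RF (p : Cond I) (l : List (Obj (Cond I))) : Prop :=
  ∃ (x σ : Nm (Cond I)) (n k k' : ℕ) (w : Nm (Cond I)),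
    l = [Sum.inl (pairN (pairN x σ) (pairN (nN _ n) (pairN (nN _ k) (nN _ k')))), Sum.inl w] ∧
    FMem (pairN x σ) w p ∧ Fv σ n k p ∧ Fv σ n k' p ∧ k ≠ k'

/-- a violation -/
def RC (E : ℕ → ℕ → Prop) (p : Cond I) (l : List (Obj (Cond I))) : Prop :=
  ∃ (α : I) (y : ℕ → ℕ → ℕ) (σ τ w : Nm (Cond I)),
    l = [Sum.inl (pairN (pairN (aN u α) (bN I v y)) (pairN σ τ)), Sum.inl w] ∧
    FMem (pairN (aN u α) σ) w p ∧ FMem (pairN (bN I v y) τ) w p ∧ CAlt E α y p (Fv σ) (Fv τ)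

/-- **The combinatorial part of the contradiction.** -/
theorem core_contra {E : ℕ → ℕ → Prop} (hcore : CoreP I E) (w : Nm (Cond I)) (p₀ : Cond I)
    (hA1 : ∀ q ≤ p₀, ∀ x, ¬ RA1 u q [x, Sum.inl w])
    (hB1 : ∀ q ≤ p₀, ∀ x, ¬ RB1 v q [x, Sum.inl w])
    (hT2 : ∀ q ≤ p₀, ∀ x, ¬ RT2 q [x, Sum.inl w])
    (hF : ∀ q ≤ p₀, ∀ x, ¬ RF q [x, Sum.inl w])
    (hC : ∀ q ≤ p₀, ∀ x, ¬ RC u v E q [x, Sum.inl w]) : False := by
  classical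
  have hA1' : ∀ q ≤ p₀, ∀ α, ∃ r ≤ q, ∃ σ, FMem (pairN (aN u α) σ) w r := by
    intro q hq α
    by_contra hcon
    push Not at hcon
    exact hA1 q hq _ ⟨α, w, rfl, hcon⟩
  have hB1' : ∀ q ≤ p₀, ∀ y, ∃ r ≤ q, ∃ σ, FMem (pairN (bN I v y) σ) w r := by
    intro q hq y
    by_contra hcon
    push Not at hcon
    exact hB1 q hq _ ⟨y, w, rfl, hcon⟩
  have hT2' : ∀ q ≤ p₀, ∀ x σ n, FMem (pairN x σ) w q → ∃ r ≤ q, ∃ k, Fv σ n k r := by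
    intro q hq x σ n h1
    by_contra hcon
    push Not at hcon
    exact hT2 q hq _ ⟨x, σ, n, w, rfl, h1, hcon⟩
  have hF' : ∀ q ≤ p₀, ∀ x σ n k k', FMem (pairN x σ) w q → Fv σ n k q → Fv σ n k' q →
      k = k' := by
    intro q hq x σ n k k' h1 h2 h3
    by_contra hcon
    exact hF q hq _ ⟨x, σ, n, k, k', w, rfl, h1, h2, h3, hcon⟩
  -- antichains
  have hex : ∀ y, ∃ A ⊆ {q : Cond I | q ≤ p₀ ∧ ∃ σ, FMem (pairN (bN I v y) σ) w q},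
      (∀ a ∈ A, ∀ b ∈ A, ∀ r, r ≤ a → r ≤ b → a = b) ∧
      ∀ q ∈ {q : Cond I | q ≤ p₀ ∧ ∃ σ, FMem (pairN (bN I v y) σ) w q},
        ∃ a ∈ A, ∃ r, r ≤ q ∧ r ≤ a := fun y => exists_antichain _
  choose A hAsub hAanti hAmax using hex
  have hτ : ∀ y q, ∃ σ, q ∈ A y → FMem (pairN (bN I v y) σ) w q := by
    intro y q
    by_cases h : q ∈ A y
    · obtain ⟨σ, hσ⟩ := (hAsub y h).2
      exact ⟨σ, fun _ => hσ⟩
    · exact ⟨w, fun h' => (h h').elim⟩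
  choose τ hτ using hτ
  have hdense : ∀ y, ∀ q ≤ p₀, ∃ r ≤ q, ∃ a ∈ A y, r ≤ a := by
    intro y q hq
    obtain ⟨r, hr, h1⟩ := hB1' q hq y
    obtain ⟨a, ha, r', h2, h3⟩ := hAmax y r ⟨hr.trans hq, h1⟩
    exact ⟨r', h2.trans hr, a, ha, h3⟩
  obtain ⟨α, hα⟩ := hcore p₀ (fun y n k q => ∃ a ∈ A y, q ≤ a ∧ Fv (τ y a) n k q)
    (by
      rintro y n k q r ⟨a, ha, h1, h2⟩ hr
      exact ⟨a, ha, hr.trans h1, h2.mono hr⟩)
    (by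
      rintro y n k k' q hq ⟨a, ha, h1, h2⟩ ⟨b, hb, h3, h4⟩
      obtain rfl := hAanti y a ha b hb q h1 h3
      exact hF' q hq _ _ n k k' ((hτ y a ha).mono h1) h2 h4)
    (by
      intro y n q hq
      obtain ⟨r, hr, a, ha, hra⟩ := hdense y q hq
      obtain ⟨r', hr', k, hk⟩ := hT2' r (hr.trans hq) _ _ n ((hτ y a ha).mono hra)
      exact ⟨r', hr'.trans hr, k, a, ha, hr'.trans hra, hk⟩)
  obtain ⟨p₁, hp₁, σ, hσ⟩ := hA1' p₀ le_rfl α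
  obtain ⟨y, q, hq, hq2⟩ := hα p₁ hp₁ (fun n k q => Fv σ n k q)
    (fun n k q r h hr => h.mono hr)
    (fun n k k' q hq h1 h2 => hF' q (hq.trans hp₁) _ _ n k k' (hσ.mono hq) h1 h2)
    (fun n q hq => hT2' q (hq.trans hp₁) _ _ n (hσ.mono hq))
  obtain ⟨r, hr, a, ha, hra⟩ := hdense y q (hq.trans hp₁)
  refine hC r (hr.trans (hq.trans hp₁)) _ ⟨α, y, σ, τ y a, w, rfl, hσ.mono (hr.trans hq),
    (hτ y a ha).mono hra, ?_⟩
  rcases hq2 with ⟨i, h1, h2⟩ | ⟨h1, h2⟩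
  · left
    refine ⟨i, fun n hn j hj => h1 n (hr.1 hn) j (hr.2 α n hj), ?_⟩
    intro n hn r' hr' k l hk hl
    exact h2 n (hr.1 hn) r' (hr'.trans hr) k l hk ⟨a, ha, hr'.trans hra, hl⟩
  · right
    refine ⟨fun m => ?_, ?_⟩
    · obtain ⟨N, hN⟩ := h1 m
      exact ⟨N, fun n hn hNn j hj => hN n (hr.1 hn) hNn j (hr.2 α n hj)⟩
    · intro n hn r' hr' k l hk hl
      exact h2 n (hr.1 hn) r' (hr'.trans hr) k l hk ⟨a, ha, hr'.trans hra, hl⟩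

end Pool.Agent.Helper85.FV
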