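import Pool.Agent.Helper85.FV.Gn

/-!
# The generic ultrafilter
-/

open Ordinal

set_option linter.unusedSectionVars false

namespace Pool.Agent.Helper85.FV

open Pool.Agent.Helper96.Fc Pool.Agent.Helper89.FV

variable {I : Type}

/-- name of the generic ultrafilter -/
noncomputable def UN (I : Type) : Nm (Cond I) :=
  Nm.mk {t : {s : Set ((ordN (Cond I) ω).Ix × Cond I) // ∀ t ∈ s, t.2 ≤ (ordN (Cond I) ω).cd t.1} ×
      Cond I // ∃ m, ∀ n ∈ t.2.b, m ≤ n → FMem (nN _ n) (sN (ordN (Cond I) ω) t.1) t.2}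
    (fun t => sN (ordN (Cond I) ω) t.1.1) (fun t => t.1.2)

/-- `p` decides `z` -/
def RUl (p : Cond I) (l : List (Obj (Cond I))) : Prop :=
  ∃ z : Nm (Cond I), l = [Sum.inl z, Sum.inl z] ∧
    ((∀ n ∈ p.b, FMem (nN _ n) z p) ∨ ∀ n ∈ p.b, ∀ r ≤ p, ¬ FMem (nN _ n) z r)

/-- names of subsets of `ℕ` are decided by a dense set of conditions -/
def Dcd (I : Type) : Prop := ∀ (z : Nm (Cond I)) (c : Cond I), ∃ q ≤ c,
  (∀ n ∈ q.b, FMem (nN _ n) z q) ∨ ∀ n ∈ q.b, ∀ r ≤ q, ¬ FMem (nN _ n) z r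

section

variable {X : Set (Obj (Cond I))} {G : Set (Cond I)}

theorem exists_ge {b : Set ℕ} (hb : b.Infinite) (m : ℕ) : ∃ n ∈ b, m ≤ n := by
  obtain ⟨n, hn, h⟩ := hb.exists_gt m
  exact ⟨n, hn, h.le⟩

theorem decided (hb : Basic X G) (hc : Clos X) (hD : Dcd I) (hg : GenR X G RUl)
    {z : Nm (Cond I)} (hz : (Sum.inl z : Obj (Cond I)) ∈ X) :
    ∃ p ∈ G, (∀ n ∈ p.b, FMem (nN _ n) z p) ∨ ∀ n ∈ p.b, nat n ∉ val X G z := by
  obtain ⟨p, hp, h1⟩ := hg [Sum.inl z] (by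
    intro a ha
    rw [List.mem_singleton] at ha
    rwa [ha])
  refine ⟨p, hp, ?_⟩
  rcases h1 with ⟨y, -, z', he, h2⟩ | h1
  · simp only [List.cons.injEq, Sum.inl.injEq, and_true] at he
    obtain ⟨-, rfl⟩ := he
    rcases h2 with h2 | h2
    · exact Or.inl h2
    · right
      intro n hn h3
      obtain ⟨q, hq, h4⟩ := (nN_mem_val hb hc hz).1 h3
      obtain ⟨r, -, hrp, hrq⟩ := hb.filt.compat hp hq
      exact h2 n hn r hrp (h4.mono hrq)
  · exfalso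
    obtain ⟨q, hq, h2⟩ := hD z p
    exact h1 q hq _ ⟨z, rfl, h2⟩

theorem mem_UN (hb : Basic X G) (hc : Clos X) (hD : Dcd I) (hg : GenR X G RUl) {z : ZFSet.{0}} :
    z ∈ val X G (UN I) ↔ z ∈ Mod X G ∧ z ⊆ om ∧ ∃ p ∈ G, ∃ m, ∀ n ∈ p.b, m ≤ n → nat n ∈ z := by
  constructor
  · intro hz
    obtain ⟨⟨⟨s, p⟩, m, hm⟩, h1, h2, rfl⟩ := mem_val.1 hz
    have h1' : p ∈ G := h1
    have h2' : (Sum.inl (sN (ordN (Cond I) ω) s) : Obj (Cond I)) ∈ X := h2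
    refine ⟨mem_Mod h2, ?_, p, h1', m, ?_⟩
    · intro a ha
      rw [← val_om hb.filt hc]
      have ha' : a ∈ val X G (sN (ordN (Cond I) ω) s) := ha
      obtain ⟨i, q, hq, h3, h4, h5⟩ := (val_sN hb).1 ha'
      exact mem_val.2 ⟨i, hb.filt.up _ hq _ (s.2 _ h3), h4, h5⟩
    · intro n hn hmn
      exact (nN_mem_val hb hc h2').2 ⟨p, h1', hm n hn hmn⟩
  · rintro ⟨⟨w, hw, rfl⟩, hsub, p, hp, m, hm⟩
    have hsX := hc.sub _ _ hc.omega hw
    have hval : val X G (subN (ordN (Cond I) ω) w) = val X G w := by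
      ext a
      rw [val_subN hb hw, val_om hb.filt hc]
      exact ⟨fun h => h.2, fun h => ⟨hsub h, h⟩⟩
    obtain ⟨q, hq, h1⟩ := decided hb hc hD hg hsX
    rcases h1 with h1 | h1
    · rw [← hval]
      exact mem_val.2 ⟨⟨(⟨{t | t.2 ≤ (ordN (Cond I) ω).cd t.1 ∧
        FMem ((ordN (Cond I) ω).fn t.1) w t.2}, fun _ ht => ht.1⟩, q),
        0, fun n hn _ => h1 n hn⟩, hq, hsX, rfl⟩
    · exfalso
      obtain ⟨r, -, hrp, hrq⟩ := hb.filt.compat hp hq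
      obtain ⟨n, hn, hmn⟩ := exists_ge r.inf m
      refine h1 n (hrq.1 hn) ?_
      rw [hval]
      exact hm n (hrp.1 hn) hmn

theorem freeUltra (hb : Basic X G) (hc : Clos X) (hD : Dcd I) (hg : GenR X G RUl)
    (hU : (Sum.inl (UN I) : Obj (Cond I)) ∈ X) : FreeUltra (Mod X G) (val X G (UN I)) where
  mem := mem_Mod hU
  sub := fun z hz => ((mem_UN hb hc hD hg).1 hz).2.1
  inf := by
    intro z hz m
    obtain ⟨-, -, p, hp, k, hk⟩ := (mem_UN hb hc hD hg).1 hz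
    obtain ⟨n, hn, h1⟩ := exists_ge p.inf (max m k)
    exact ⟨n, (le_max_left _ _).trans h1, hk n hn ((le_max_right _ _).trans h1)⟩
  inter := by
    intro z hz w hw
    obtain ⟨hz1, hz2, p, hp, k, hk⟩ := (mem_UN hb hc hD hg).1 hz
    obtain ⟨hw1, -, q, hq, l, hl⟩ := (mem_UN hb hc hD hg).1 hw
    refine (mem_UN hb hc hD hg).2 ⟨?_, ?_, ?_⟩
    · obtain ⟨z', hz', rfl⟩ := hz1
      obtain ⟨w', hw', rfl⟩ := hw1
      refine ⟨_, hc.sub _ _ hz' hw', ?_⟩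
      ext a
      rw [val_subN hb hw', ZFSet.mem_inter]
    · intro a ha
      exact hz2 (ZFSet.mem_inter.1 ha).1
    · obtain ⟨r, hr, hrp, hrq⟩ := hb.filt.compat hp hq
      refine ⟨r, hr, max k l, fun n hn h1 => ?_⟩
      exact ZFSet.mem_inter.2 ⟨hk n (hrp.1 hn) ((le_max_left _ _).trans h1),
        hl n (hrq.1 hn) ((le_max_right _ _).trans h1)⟩
  up := by
    intro z hz w hw hzw hwo
    obtain ⟨-, -, p, hp, k, hk⟩ := (mem_UN hb hc hD hg).1 hz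
    exact (mem_UN hb hc hD hg).2 ⟨hw, hwo, p, hp, k, fun n hn h1 => hzw (hk n hn h1)⟩
  ultra := by
    rintro z hz hzo
    obtain ⟨w, hw, rfl⟩ := hz
    obtain ⟨p, hp, h1⟩ := decided hb hc hD hg hw
    rcases h1 with h1 | h1
    · left
      exact (mem_UN hb hc hD hg).2 ⟨mem_Mod hw, hzo, p, hp, 0, fun n hn _ =>
        (nN_mem_val hb hc hw).2 ⟨p, hp, h1 n hn⟩⟩
    · right
      refine (mem_UN hb hc hD hg).2 ⟨?_, ?_, p, hp, 0, fun n hn _ => ?_⟩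
      · have hom : om ∈ Mod X G := by
          rw [← val_om hb.filt hc]
          exact mem_Mod hc.omega
        obtain ⟨b, hbM, h2⟩ := Mod.sep hb hc (m := 1) (Fml.neg (Fml.mem 0 1))
          (v := fun _ => val X G w) (fun _ => mem_Mod hw) hom
        have h3 : om \ val X G w = b := by
          ext a
          rw [ZFSet.mem_sdiff, h2]
          rfl
        rw [h3]
        exact hbM
      · intro a ha
        exact (ZFSet.mem_sdiff.1 ha).1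
      · exact ZFSet.mem_sdiff.2 ⟨mem_om'.2 ⟨n, rfl⟩, h1 n hn⟩

/-- the sets `b ∩ [m, ∞)` of the conditions in the filter belong to `U` -/
theorem cond_mem_U (hb : Basic X G) (hc : Clos X) (hD : Dcd I) (hg : GenR X G RUl)
    (hbN : ∀ (r : Cond I) m, (Sum.inr r : Obj (Cond I)) ∈ X →
      (Sum.inl (setN (Cond I) (r.b ∩ Set.Ici m)) : Obj (Cond I)) ∈ X)
    {p : Cond I} (hp : p ∈ G) (m : ℕ) : ∃ z ∈ val X G (UN I), ∃ r ∈ G, r ≤ p ∧
      ∀ n, nat n ∈ z ↔ n ∈ r.b ∧ m ≤ n := by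
  obtain ⟨r, hr, hrp, hrX⟩ := hb.filt.below hp
  have h1 := hbN r m hrX
  have h2 : ∀ n, nat n ∈ val X G (setN (Cond I) (r.b ∩ Set.Ici m)) ↔ n ∈ r.b ∧ m ≤ n := by
    intro n
    rw [val_setN hb.filt hc]
    constructor
    · rintro ⟨k, hk, he⟩
      rw [nat_inj' he]
      exact hk
    · intro h3
      exact ⟨n, h3, rfl⟩
  refine ⟨_, (mem_UN hb hc hD hg).2 ⟨mem_Mod h1, ?_, r, hr, m, fun n hn hm =>
    (h2 n).2 ⟨hn, hm⟩⟩, r, hr, hrp, h2⟩
  intro a ha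
  obtain ⟨n, -, rfl⟩ := (val_setN hb.filt hc).1 ha
  exact mem_om'.2 ⟨n, rfl⟩

end

end Pool.Agent.Helper85.FV
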